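import Pool.Agent.Y554.SN.Two

/-!
Critical bond percolation on `ℤ²`: the exact order, for all sizes and all noise levels, of the
covariance of the left-right crossings of a square in two correlated configurations, and of the
lower tail of the size of the spectral sample.

Files of the proof: `Y554/SN` (statements of the parts, assembly), `Y197/NW` (sharp noise
sensitivity), `Y532/SN`, `Y785/SN`, `Y67/SN`, `Y381/SN`, `Y50/SN`, `Y469/SN`, `Y185/SN`, `Y312/SN`,
`Y993/SN`, `Y286/SN`, `Y179/SN` (two-layer arm probabilities in the square, at its sides and at its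
corners, and their sums), `Y38/SN`, `Y908/SN`, `Y433/SN` (lower bounds). They use the arm exponents
of `ℤ²` of the starting library.
-/

set_option autoImplicit false

namespace Pool.Agent.Y989.Moved.CrossingCovariance

open Finset

/-- Vertices of the square lattice. -/
abbrev Vertex := ℤ × ℤ

/-- Edges: `(x, y, true)` joins `(x, y)` to `(x + 1, y)` and `(x, y, false)` joins `(x, y)` to
`(x, y + 1)`. -/
abbrev Edge := ℤ × ℤ × Bool

/-- First endpoint of an edge. -/
def src (e : Edge) : Vertex := (e.1, e.2.1)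

/-- Second endpoint of an edge. -/
def tgt (e : Edge) : Vertex := if e.2.2 then (e.1 + 1, e.2.1) else (e.1, e.2.1 + 1)

/-- `u` and `v` are joined by an edge of `F`. -/
def Adj (F : Set Edge) (u v : Vertex) : Prop :=
  ∃ e ∈ F, (src e = u ∧ tgt e = v) ∨ (src e = v ∧ tgt e = u)

/-- `u` and `v` are joined by a path of edges of `F`. -/
def Conn (F : Set Edge) (u v : Vertex) : Prop := Relation.ReflTransGen (Adj F) u v

/-- The set `𝓘_n` of the edges in the square `[-n, n]²`. -/
noncomputable def edges (n : ℕ) : Finset Edge :=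
  (Icc (-(n : ℤ)) n ×ˢ (Icc (-(n : ℤ)) n ×ˢ univ)).filter
    (fun e => (tgt e).1 ≤ n ∧ (tgt e).2 ≤ n)

/-- Expectation under `P_{1/2}`: a configuration is the set `F ⊆ 𝓘_n` of its open edges. -/
noncomputable def expect (n : ℕ) (h : Finset Edge → ℝ) : ℝ :=
  (∑ F ∈ (edges n).powerset, h F) / 2 ^ (edges n).card

open Classical in
/-- The function `g_n`: indicator of an open path from the left side to the right side. -/
noncomputable def g (n : ℕ) (F : Finset Edge) : ℝ :=
  if ∃ y y' : ℤ, |y| ≤ n ∧ |y'| ≤ n ∧ Conn (↑F : Set Edge) (-(n : ℤ), y) ((n : ℤ), y') then 1 else 0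

/-- The character `χ_S = ∏_{e ∈ S} ω_e`, with `ω_e = 1` if `e` is open and `ω_e = -1` if not. -/
noncomputable def chi (S F : Finset Edge) : ℝ := ∏ e ∈ S, (if e ∈ F then 1 else -1)

/-- The Fourier-Walsh coefficient of `g_n` at `S`. -/
noncomputable def coef (n : ℕ) (S : Finset Edge) : ℝ := expect n (fun F => g n F * chi S F)

open Classical in
/-- Probability of the event `A` for the spectral sample of `g_n`. -/
noncomputable def specP (n : ℕ) (A : Finset Edge → Prop) : ℝ :=
  ∑ S ∈ (edges n).powerset.filter A, (coef n S) ^ 2 / expect n (fun F => (g n F) ^ 2)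

/-- Expectation for a pair of configurations `(F, F')`: each edge of the square is open with
probability `1/2` in each of them, it has the same state in both with probability `(1 + x) / 2`,
and different edges are independent. For dynamical percolation (every edge is refreshed at rate `1`
by a fair coin) this is the law of the configurations at two times which differ by `t`, with
`x = exp (-t)`. -/
noncomputable def pairE (n : ℕ) (x : ℝ) (h : Finset Edge → Finset Edge → ℝ) : ℝ :=
  ∑ F ∈ (edges n).powerset, ∑ F' ∈ (edges n).powerset,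
    (∏ e ∈ edges n, if (e ∈ F ↔ e ∈ F') then (1 + x) / 4 else (1 - x) / 4) * h F F'

/-- The covariance of the crossings of the square in the two configurations. -/
noncomputable def cov (n : ℕ) (x : ℝ) : ℝ :=
  pairE n x (fun F F' => g n F * g n F') - expect n (g n) ^ 2

/-- **Covariance of the crossings and lower tail of the spectral sample.** -/
theorem result :
    (∃ c C : ℝ, 0 < c ∧ 0 < C ∧ ∀ (n : ℕ) (x : ℝ), 1 ≤ n → 0 ≤ x → x ≤ 1 →
      c * (x * (1 + (1 - x) * (n : ℝ) ^ (3 / 4 : ℝ)) ^ (-(2 / 3) : ℝ)) ≤ cov n x ∧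
        cov n x ≤ C * (x * (1 + (1 - x) * (n : ℝ) ^ (3 / 4 : ℝ)) ^ (-(2 / 3) : ℝ))) ∧
    (∃ c C : ℝ, 0 < c ∧ 0 < C ∧ ∀ n m : ℕ, 1 ≤ m → (m : ℝ) ≤ (n : ℝ) ^ (3 / 4 : ℝ) →
      c * ((m : ℝ) / (n : ℝ) ^ (3 / 4 : ℝ)) ^ (2 / 3 : ℝ) ≤
        specP n (fun S => S ≠ ∅ ∧ S.card ≤ m) ∧
      specP n (fun S => S ≠ ∅ ∧ S.card ≤ m) ≤
        C * ((m : ℝ) / (n : ℝ) ^ (3 / 4 : ℝ)) ^ (2 / 3 : ℝ)) :=
  ⟨Pool.Agent.Y554.SN.Two.cov, Pool.Agent.Y554.SN.Two.tail⟩

end Pool.Agent.Y989.Moved.CrossingCovariance
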