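import Pool.Agent.Y244.PC.Tails
import Pool.Agent.Y244.PC.Law
import Pool.Agent.H160R2.SA.Arm

/-!
Critical bond percolation on the square lattice: the exact order of both tails of the number
`M` of vertices of the largest open cluster of the box `[-n, n]²`. Uniformly in `n` and in the
whole range of values of `M`,
`P(M ≥ x n ^ (91/48)) = exp (-Θ(x ^ (96/5)))` and `P(M ≤ n ^ (91/48) / x) = exp (-Θ(x ^ (96/91)))`.
-/

namespace Pool.Agent.Y989.Moved.LargestClusterTails

open MeasureTheory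

/-- The square lattice: two points of `ℤ²` are adjacent when they differ by one in exactly one
coordinate. -/
def Z2 : SimpleGraph (ℤ × ℤ) where
  Adj u v := |u.1 - v.1| + |u.2 - v.2| = 1
  symm := ⟨fun u v h => by rw [abs_sub_comm v.1, abs_sub_comm v.2]; exact h⟩
  loopless := ⟨fun u h => by simp at h⟩

/-- Critical bond percolation: every edge of the square lattice is open (`true`) with
probability `1/2`, independently of the other edges. -/
noncomputable def crit : Measure (Z2.edgeSet → Bool) :=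
  Measure.infinitePi (fun _ => ProbabilityTheory.bernoulliMeasure true false
    ⟨1/2, by norm_num, by norm_num⟩)

/-- The graph of the open edges. -/
def openGraph (ω : Z2.edgeSet → Bool) : SimpleGraph (ℤ × ℤ) :=
  SimpleGraph.fromEdgeSet {e | ∃ h : e ∈ Z2.edgeSet, ω ⟨e, h⟩ = true}

/-- The vertices of the box `[-n, n]²`. -/
noncomputable def box (n : ℕ) : Finset (ℤ × ℤ) :=
  Finset.Icc (-(n : ℤ)) n ×ˢ Finset.Icc (-(n : ℤ)) n

/-- The graph of the open edges with both ends in the box `[-n, n]²`. -/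
def boxGraph (n : ℕ) (ω : Z2.edgeSet → Bool) : SimpleGraph (ℤ × ℤ) where
  Adj u v := (openGraph ω).Adj u v ∧ u ∈ box n ∧ v ∈ box n
  symm := ⟨fun _ _ h => ⟨h.1.symm, h.2.2, h.2.1⟩⟩
  loopless := ⟨fun _ h => (openGraph ω).loopless.irrefl _ h.1⟩

/-- The number of vertices of the largest open cluster of the box `[-n, n]²`. -/
noncomputable def largest (n : ℕ) (ω : Z2.edgeSet → Bool) : ℕ :=
  (box n).sup fun v => Set.ncard {u | (boxGraph n ω).Reachable v u}

open Pool.Agent.H160R2.CV H974 in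
theorem law_ge (n : ℕ) (y : ℝ) :
    crit.real {ω | y ≤ largest n ω} = Pr P (boxE n) (Big y n) :=
  Pool.Agent.Y244.PC.maxCl_ge n y

open Pool.Agent.H160R2.CV H974 in
theorem law_le (n : ℕ) {y : ℝ} (hy : 0 ≤ y) :
    crit.real {ω | (largest n ω : ℝ) ≤ y} =
      Pr P (boxE n) (fun F => ¬ Big ((⌊y⌋₊ : ℝ) + 1) n F) :=
  Pool.Agent.Y244.PC.maxCl_le n hy

/-- **Both tails of the size of the largest critical cluster of a box of the square lattice.**
`(2 n + 1) ^ 2` is the number of vertices of the box, so the two conditions on `x` say that the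
events are possible. -/
theorem result : ∃ c C : ℝ, 0 < c ∧ 0 < C ∧ ∀ n : ℕ, 1 ≤ n → ∀ x : ℝ, 1 ≤ x →
    (x * (n : ℝ) ^ (91 / 48 : ℝ) ≤ (2 * (n : ℝ) + 1) ^ 2 →
      Real.exp (-(C * x ^ (96 / 5 : ℝ))) ≤
        crit.real {ω | x * (n : ℝ) ^ (91 / 48 : ℝ) ≤ largest n ω}) ∧
    crit.real {ω | x * (n : ℝ) ^ (91 / 48 : ℝ) ≤ largest n ω} ≤
      C * Real.exp (-(c * x ^ (96 / 5 : ℝ))) ∧
    (x ≤ (n : ℝ) ^ (91 / 48 : ℝ) →
      Real.exp (-(C * x ^ (96 / 91 : ℝ))) ≤
        crit.real {ω | (largest n ω : ℝ) ≤ (n : ℝ) ^ (91 / 48 : ℝ) / x}) ∧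
    crit.real {ω | (largest n ω : ℝ) ≤ (n : ℝ) ^ (91 / 48 : ℝ) / x} ≤
      C * Real.exp (-(c * x ^ (96 / 91 : ℝ))) := by
  have hAr : Pool.Agent.H160R2.CV.ArSharp := Pool.Agent.H160R2.SA.arSharp
  obtain ⟨C1, hC1, h1⟩ := Pool.Agent.Y244.PC.upper_tail_lower hAr
  obtain ⟨c2, C2, hc2, hC2, h2⟩ := Pool.Agent.Y244.PC.upper_tail_upper hAr
  obtain ⟨C3, hC3, h3⟩ := Pool.Agent.Y244.PC.lower_tail_lower hAr
  obtain ⟨c4, C4, hc4, hC4, h4⟩ := Pool.Agent.Y244.PC.lower_tail_upper hAr
  have m1 : C1 ≤ max (max C1 C2) (max C3 C4) := (le_max_left _ _).trans (le_max_left _ _)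
  have m2 : C2 ≤ max (max C1 C2) (max C3 C4) := (le_max_right _ _).trans (le_max_left _ _)
  have m3 : C3 ≤ max (max C1 C2) (max C3 C4) := (le_max_left _ _).trans (le_max_right _ _)
  have m4 : C4 ≤ max (max C1 C2) (max C3 C4) := (le_max_right _ _).trans (le_max_right _ _)
  refine ⟨min c2 c4, max (max C1 C2) (max C3 C4), lt_min hc2 hc4, hC1.trans_le m1, ?_⟩
  intro n hn x hx
  have hx0 : 0 < x := by linarith
  have hp : ∀ s : ℝ, 0 ≤ x ^ s := fun s => Real.rpow_nonneg hx0.le s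
  have hN : 0 ≤ (n : ℝ) ^ (91 / 48 : ℝ) / x := by positivity
  rw [law_ge, law_le n hN]
  refine ⟨fun h => ?_, ?_, fun h => ?_, ?_⟩
  · refine le_trans ?_ (h1 n hn x hx h)
    apply Real.exp_le_exp.mpr
    have := mul_le_mul_of_nonneg_right m1 (hp (96 / 5))
    linarith
  · refine (h2 n hn x hx).trans ?_
    apply mul_le_mul m2 _ (Real.exp_pos _).le (hC2.le.trans m2)
    apply Real.exp_le_exp.mpr
    have := mul_le_mul_of_nonneg_right (min_le_left c2 c4) (hp (96 / 5))
    linarith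
  · refine le_trans ?_ (h3 n hn x hx h)
    apply Real.exp_le_exp.mpr
    have := mul_le_mul_of_nonneg_right m3 (hp (96 / 91))
    linarith
  · refine (h4 n hn x hx).trans ?_
    apply mul_le_mul m4 _ (Real.exp_pos _).le (hC4.le.trans m4)
    apply Real.exp_le_exp.mpr
    have := mul_le_mul_of_nonneg_right (min_le_right c2 c4) (hp (96 / 91))
    linarith

end Pool.Agent.Y989.Moved.LargestClusterTails
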